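import Mathlib
import Pool.Agent.H964R3.Sep

/-!
# Linear independence of high powers of pairwise non-proportional polynomials in one variable
-/

set_option autoImplicit false

namespace Pool.Agent.TH710.NP

open Polynomial Pool.Agent.H964R3

variable {K : Type*} [Field K] [CharZero K]

/-- the local lower bound for the order of the Wronskian of a minimal relation -/
theorem local_bound {ι : Type*} [DecidableEq ι] (t : Finset ι) (g : ι → K[X]) (e : ℕ) (a : ι)
    (ha : a ∈ t) (d : ι → K) (hd : ∀ i ∈ t, d i ≠ 0)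
    (hrel : ∑ i ∈ t, C (d i) * g i ^ e = 0) (s : Finset ι) (hs : s = t.erase a) {m : ℕ}
    (σ : Fin m ≃ s) (π : K[X]) (ν : ι → ℕ) (hν : ∀ i ∈ t, π ^ ν i ∣ g i)
    (b : ι) (hb : b ∈ t) (hb0 : ν b = 0) :
    π ^ ((e - (m - 1)) * ∑ i ∈ t, ν i) ∣ (Wm fun x => g (σ x) ^ e).det := by
  classical
  set f : Fin m → K[X] := fun x => g (σ x) ^ e with hf
  have hsumf : ∀ φ : ι → ℕ, ∑ x : Fin m, φ (σ x) = ∑ i ∈ s, φ i := by
    intro φ
    rw [← Finset.sum_coe_sort s, ← Equiv.sum_comp σ]
  have hu_dvd : ∀ i ∈ t, π ^ (e * ν i) ∣ g i ^ e := by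
    intro i hi
    rw [mul_comm, pow_mul]
    exact pow_dvd_pow_of_dvd (hν i hi) e
  have hst : s ⊆ t := by rw [hs]; exact Finset.erase_subset _ _
  have hσt : ∀ x, ((σ x : s) : ι) ∈ t := fun x => hst (σ x).2
  have key : ∀ i, (e - (m - 1)) * ν i ≤ e * ν i - (m - 1) := by
    intro i
    rcases Nat.eq_zero_or_pos (ν i) with h | h
    · rw [h]; simp
    · have h1 : (m - 1) ≤ (m - 1) * ν i := Nat.le_mul_of_pos_right _ h
      rw [Nat.sub_mul]
      exact Nat.sub_le_sub_left h1 _
  have hle : ∀ u : Finset ι, (e - (m - 1)) * ∑ i ∈ u, ν i ≤ ∑ i ∈ u, (e * ν i - (m - 1)) := by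
    intro u
    rw [Finset.mul_sum]
    exact Finset.sum_le_sum fun i _ => key i
  by_cases hba : b = a
  · subst hba
    have h1 := pow_dvd_det_Wm f π (fun x => e * ν (σ x)) (fun x => hu_dvd _ (hσt x))
    refine (pow_dvd_pow _ ?_).trans h1
    rw [hsumf (fun i => e * ν i - (m - 1))]
    rw [← Finset.add_sum_erase t ν ha, hb0, zero_add, ← hs]
    exact hle _
  · have hbs : b ∈ s := by rw [hs]; exact Finset.mem_erase.2 ⟨hba, hb⟩
    set x0 : Fin m := σ.symm ⟨b, hbs⟩ with hx0
    have hσx0 : ((σ x0 : s) : ι) = b := by rw [hx0, Equiv.apply_symm_apply]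
    have h1 := pow_dvd_det_Wm (Function.update f x0 (g a ^ e)) π
      (Function.update (fun x => e * ν (σ x)) x0 (e * ν a)) (by
        intro x
        by_cases hx : x = x0
        · subst hx
          rw [Function.update_self, Function.update_self]
          exact hu_dvd a ha
        · rw [Function.update_of_ne hx, Function.update_of_ne hx]
          exact hu_dvd _ (hσt x))
    have h2 := det_exchange f (g a ^ e) (fun x => d (σ x)) (d a) x0 (by
      have h3 : ∑ x : Fin m, C (d (σ x)) * f x = ∑ i ∈ s, C (d i) * g i ^ e := by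
        rw [← Finset.sum_coe_sort s, ← Equiv.sum_comp σ]
      rw [h3, hs, Finset.add_sum_erase t (fun i => C (d i) * g i ^ e) ha]
      exact hrel)
    have h3 : π ^ ((e - (m - 1)) * ∑ i ∈ t, ν i) ∣ C (d (σ x0)) * (Wm f).det := by
      rw [h2, dvd_neg]
      refine Dvd.dvd.mul_left ?_ _
      refine (pow_dvd_pow _ ?_).trans h1
      have h5 : ∀ x, Function.update (fun x => e * ν (σ x)) x0 (e * ν a) x - (m - 1) =
          Function.update (fun x => e * ν (σ x) - (m - 1)) x0 (e * ν a - (m - 1)) x := by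
        intro x
        by_cases hx : x = x0
        · subst hx
          rw [Function.update_self, Function.update_self]
        · rw [Function.update_of_ne hx, Function.update_of_ne hx]
      rw [Finset.sum_congr rfl fun x _ => h5 x]
      rw [Finset.sum_update_of_mem (Finset.mem_univ x0), Finset.sdiff_singleton_eq_erase]
      have h6 := Finset.add_sum_erase Finset.univ (fun x : Fin m => e * ν (σ x) - (m - 1))
            (Finset.mem_univ x0)
      rw [hsumf (fun i => e * ν i - (m - 1)), hσx0, hb0, mul_zero, Nat.zero_sub, zero_add] at h6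
      rw [h6]
      refine (hle t).trans ?_
      rw [← Finset.add_sum_erase t (fun i => e * ν i - (m - 1)) ha, ← hs]
    have h5 : IsUnit (C (d (σ x0)) : K[X]) := by
      rw [isUnit_C]
      exact (hd _ (by rw [hσx0]; exact hb)).isUnit
    exact (h5.dvd_mul_left).1 h3

/-- A minimal linear relation between `e`-th powers has few terms or all bases are constant. -/
theorem minimal_const [IsAlgClosed K] {ι : Type*} [DecidableEq ι] (t : Finset ι) (g : ι → K[X])
    (hg0 : ∀ i ∈ t, g i ≠ 0) (hgcd : ∀ r : K, ∃ b ∈ t, ¬ (X - C r) ∣ g b) (e : ℕ)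
    (d : ι → K) (hd : ∀ i ∈ t, d i ≠ 0) (hrel : ∑ i ∈ t, C (d i) * g i ^ e = 0)
    (hmin : ∀ s, s ⊂ t → ∀ c : ι → K, ∑ i ∈ s, C (c i) * g i ^ e = 0 → ∀ i ∈ s, c i = 0)
    (he : (t.card - 1) ^ 2 ≤ e) (he1 : 1 ≤ e) : ∀ i ∈ t, (g i).natDegree = 0 := by
  classical
  by_contra hcon
  push Not at hcon
  obtain ⟨i0, hi0, hi0d⟩ := hcon
  obtain ⟨a, ha, hamax⟩ := Finset.exists_max_image t (fun i => (g i).natDegree) ⟨i0, hi0⟩
  have had : 0 < (g a).natDegree := lt_of_lt_of_le (Nat.pos_of_ne_zero hi0d) (hamax i0 hi0)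
  set s := t.erase a with hs
  set m := s.card with hm
  have hmt : t.card = m + 1 := by
    rw [hm, hs, Finset.card_erase_of_mem ha]
    have : 0 < t.card := Finset.card_pos.2 ⟨a, ha⟩
    omega
  let σ : Fin m ≃ s := s.equivFin.symm
  set f : Fin m → K[X] := fun x => g (σ x) ^ e with hf
  have hW : (Wm f).det ≠ 0 := by
    intro h0
    obtain ⟨c, hc, hs0⟩ := wronskian_depK m f h0
    apply hc
    have h1 := hmin s (Finset.erase_ssubset ha)
      (fun i => if h : i ∈ s then c (σ.symm ⟨i, h⟩) else 0) (by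
        rw [← Finset.sum_coe_sort s, ← Equiv.sum_comp σ]
        rw [← hs0]
        refine Finset.sum_congr rfl fun x _ => ?_
        have h2 : ((σ x : s) : ι) ∈ s := (σ x).2
        simp only [dif_pos h2, Subtype.coe_eta, Equiv.symm_apply_apply]
        rfl)
    funext x
    have h2 := h1 (σ x) (σ x).2
    simp only [dif_pos (σ x).2, Subtype.coe_eta, Equiv.symm_apply_apply] at h2
    exact h2
  have hme : m - 1 ≤ e := by
    rw [hmt, Nat.add_sub_cancel] at he
    have : m ≤ m ^ 2 := Nat.le_self_pow (by norm_num) m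
    omega
  -- local inequalities
  have hloc : ∀ r : K, (e - (m - 1)) * ∑ i ∈ t, (g i).rootMultiplicity r ≤
      (Wm f).det.rootMultiplicity r := by
    intro r
    obtain ⟨b, hb, hbr⟩ := hgcd r
    rw [le_rootMultiplicity_iff hW]
    refine local_bound t g e a ha d hd hrel s hs σ (X - C r) (fun i => (g i).rootMultiplicity r)
      (fun i _ => pow_rootMultiplicity_dvd _ _) b hb ?_
    rw [rootMultiplicity_eq_zero_iff]
    intro h
    exact absurd (dvd_iff_isRoot.2 h) hbr
  have hroots : ∀ p : K[X], p ≠ 0 → ∀ R : Finset K, p.roots.toFinset ⊆ R →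
      ∑ r ∈ R, p.rootMultiplicity r = p.natDegree := by
    intro p hp R hR
    have h1 : p.natDegree = Multiset.card p.roots := by
      have := IsAlgClosed.splits p
      exact this.natDegree_eq_card_roots
    rw [h1, ← Multiset.toFinset_sum_count_eq]
    rw [← Finset.sum_subset hR]
    · exact Finset.sum_congr rfl fun r _ => (count_roots p).symm
    · intro r _ hr
      rw [← count_roots, Multiset.count_eq_zero]
      exact fun h => hr (Multiset.mem_toFinset.2 h)
  set R : Finset K := (Wm f).det.roots.toFinset ∪ t.biUnion fun i => (g i).roots.toFinset with hR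
  have h1 : ∑ r ∈ R, (e - (m - 1)) * ∑ i ∈ t, (g i).rootMultiplicity r ≤ (Wm f).det.natDegree := by
    rw [← hroots _ hW R Finset.subset_union_left]
    exact Finset.sum_le_sum fun r _ => hloc r
  rw [← Finset.mul_sum, Finset.sum_comm] at h1
  have h2 : ∑ i ∈ t, ∑ r ∈ R, (g i).rootMultiplicity r = ∑ i ∈ t, (g i).natDegree :=
    Finset.sum_congr rfl fun i hi => hroots _ (hg0 i hi) R
      ((Finset.subset_biUnion_of_mem (fun i => (g i).roots.toFinset) hi).trans
        Finset.subset_union_right)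
  rw [h2] at h1
  have h3 : (Wm f).det.natDegree ≤ e * ∑ i ∈ s, (g i).natDegree := by
    refine (natDegree_det_Wm f).trans ?_
    rw [Finset.mul_sum, ← Finset.sum_coe_sort s, ← Equiv.sum_comp σ]
    exact Finset.sum_le_sum fun x _ => by rw [hf]; simp only [natDegree_pow]; exact le_rfl
  have h4 := h1.trans h3
  have h5 := Finset.add_sum_erase t (fun i => (g i).natDegree) ha
  rw [← hs] at h5
  set S := ∑ i ∈ s, (g i).natDegree with hS
  set δ := (g a).natDegree with hδ
  have h6 : S ≤ m * δ := by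
    rw [hS, hm, ← smul_eq_mul]
    exact Finset.sum_le_card_nsmul s _ δ fun i hi => hamax i (Finset.mem_of_mem_erase hi)
  rw [← h5] at h4
  have he' : m ^ 2 ≤ e := by rw [hmt, Nat.add_sub_cancel] at he; exact he
  -- (e - (m - 1)) (δ + S) ≤ e S, S ≤ m δ, m ^ 2 ≤ e, δ > 0
  obtain ⟨q, hq⟩ : ∃ q, e = q + (m - 1) := ⟨e - (m - 1), by omega⟩
  have h7 : e - (m - 1) = q := by omega
  rw [h7] at h4
  rcases Nat.eq_zero_or_pos m with hm0 | hm0
  · have : S = 0 := by
      have : S ≤ 0 := by simpa [hm0] using h6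
      omega
    rw [this] at h4
    simp only [add_zero, mul_zero, nonpos_iff_eq_zero, mul_eq_zero] at h4
    rcases h4 with h4 | h4 <;> omega
  · obtain ⟨m', hm'⟩ : ∃ m', m = m' + 1 := ⟨m - 1, by omega⟩
    rw [hm', Nat.add_sub_cancel] at hq
    rw [hq] at h4
    rw [hq, hm'] at he'
    rw [hm'] at h6
    -- q (δ + S) ≤ (q + m') S  → q δ ≤ m' S ≤ m' (m'+1) δ → q ≤ m' (m' + 1)
    have h8 : q * δ ≤ m' * S := by nlinarith
    have h9 : q * δ ≤ m' * ((m' + 1) * δ) := h8.trans (Nat.mul_le_mul_left _ h6)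
    have h10 : q ≤ m' * (m' + 1) := by
      have : q * δ ≤ (m' * (m' + 1)) * δ := by rw [mul_assoc]; exact h9
      exact Nat.le_of_mul_le_mul_right this had
    nlinarith

/-- **Newman-Slater.** The `e`-th powers of `m` nonzero pairwise non-proportional polynomials in one
variable are linearly independent if `e ≥ (m - 1)^2`. -/
theorem pow_indep [IsAlgClosed K] {ι : Type*} (t : Finset ι) (h : ι → K[X])
    (h0 : ∀ i ∈ t, h i ≠ 0)
    (hnp : ∀ i ∈ t, ∀ j ∈ t, i ≠ j → ∀ c : K, h i ≠ C c * h j) (e : ℕ) (he1 : 1 ≤ e)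
    (he : (t.card - 1) ^ 2 ≤ e) (c : ι → K) (hsum : ∑ i ∈ t, C (c i) * h i ^ e = 0) :
    ∀ i ∈ t, c i = 0 := by
  classical
  by_contra hcon
  push Not at hcon
  obtain ⟨i0, hi0, hc0⟩ := hcon
  let P : Finset ι → Prop := fun u => u.Nonempty ∧ ∃ d : ι → K, (∀ i ∈ u, d i ≠ 0) ∧
    ∑ i ∈ u, C (d i) * h i ^ e = 0
  have hPs : t.filter (fun i => c i ≠ 0) ∈ t.powerset.filter P := by
    rw [Finset.mem_filter, Finset.mem_powerset]
    refine ⟨Finset.filter_subset _ _, ⟨i0, Finset.mem_filter.2 ⟨hi0, hc0⟩⟩, c,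
      fun i hi => (Finset.mem_filter.1 hi).2, ?_⟩
    rw [← hsum, Finset.sum_filter]
    refine Finset.sum_congr rfl fun i _ => ?_
    by_cases h0 : c i = 0
    · simp [h0]
    · simp [h0]
  obtain ⟨u, hu, humin⟩ := Finset.exists_min_image (t.powerset.filter P) Finset.card ⟨_, hPs⟩
  rw [Finset.mem_filter, Finset.mem_powerset] at hu
  obtain ⟨hut, hune, d, hd, hdrel⟩ := hu
  have hmin : ∀ s', s' ⊂ u → ∀ c' : ι → K, ∑ i ∈ s', C (c' i) * h i ^ e = 0 →
      ∀ i ∈ s', c' i = 0 := by
    intro s' hs' c' hc' i hi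
    by_contra hne'
    have h1 : s'.filter (fun i => c' i ≠ 0) ∈ t.powerset.filter P := by
      rw [Finset.mem_filter, Finset.mem_powerset]
      refine ⟨((Finset.filter_subset _ _).trans hs'.1).trans hut,
        ⟨i, Finset.mem_filter.2 ⟨hi, hne'⟩⟩, c', fun i hi => (Finset.mem_filter.1 hi).2, ?_⟩
      rw [← hc', Finset.sum_filter]
      refine Finset.sum_congr rfl fun i _ => ?_
      by_cases h0 : c' i = 0
      · simp [h0]
      · simp [h0]
    have h2 := humin _ h1
    have h3 := Finset.card_lt_card hs'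
    have h4 := Finset.card_le_card (Finset.filter_subset (fun i => c' i ≠ 0) s')
    omega
  -- divide by the greatest common divisor
  obtain ⟨g, hg, hg1⟩ := u.extract_gcd h hune
  set D := u.gcd h with hD
  have hD0 : D ≠ 0 := by
    intro h1
    obtain ⟨i, hi⟩ := hune
    apply h0 i (hut hi)
    rw [hg i hi, h1, zero_mul]
  have hg0 : ∀ i ∈ u, g i ≠ 0 := by
    intro i hi h1
    apply h0 i (hut hi)
    rw [hg i hi, h1, mul_zero]
  have hDe : D ^ e ≠ 0 := pow_ne_zero _ hD0
  have hscale : ∀ (v : Finset ι), v ⊆ u → ∀ c' : ι → K, ∑ i ∈ v, C (c' i) * h i ^ e =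
      D ^ e * ∑ i ∈ v, C (c' i) * g i ^ e := by
    intro v hv c'
    rw [Finset.mul_sum]
    refine Finset.sum_congr rfl fun i hi => ?_
    rw [hg i (hv hi), mul_pow]
    ring
  have hrel' : ∑ i ∈ u, C (d i) * g i ^ e = 0 := by
    rw [hscale u subset_rfl] at hdrel
    exact (mul_eq_zero.1 hdrel).resolve_left hDe
  have hmin' : ∀ s', s' ⊂ u → ∀ c' : ι → K, ∑ i ∈ s', C (c' i) * g i ^ e = 0 →
      ∀ i ∈ s', c' i = 0 := by
    intro s' hs' c' hc'
    apply hmin s' hs' c'
    rw [hscale s' hs'.1, hc', mul_zero]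
  have hcardle : (u.card - 1) ^ 2 ≤ e :=
    (Nat.pow_le_pow_left (Nat.sub_le_sub_right (Finset.card_le_card hut) 1) 2).trans he
  have hconst := minimal_const u g hg0 (by
    intro r
    by_contra hr
    push Not at hr
    have h1 : (X - C r) ∣ u.gcd g := Finset.dvd_gcd hr
    rw [hg1] at h1
    exact not_isUnit_X_sub_C r (isUnit_of_dvd_one h1)) e d hd hrel' hmin' hcardle he1
  -- two members
  obtain ⟨i, hi⟩ := hune
  by_cases hone : ∃ j ∈ u, j ≠ i
  · obtain ⟨j, hj, hji⟩ := hone
    have h1 := eq_C_of_natDegree_eq_zero (hconst i hi)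
    have h2 := eq_C_of_natDegree_eq_zero (hconst j hj)
    have h3 : (g j).coeff 0 ≠ 0 := by
      intro h3
      apply hg0 j hj
      rw [h2, h3, C_0]
    refine hnp i (hut hi) j (hut hj) (Ne.symm hji) ((g i).coeff 0 / (g j).coeff 0) ?_
    rw [hg i hi, hg j hj]
    calc D * g i = D * C ((g i).coeff 0) := by rw [← h1]
      _ = D * (C ((g i).coeff 0 / (g j).coeff 0) * C ((g j).coeff 0)) := by
          rw [← C_mul, div_mul_cancel₀ _ h3]
      _ = C ((g i).coeff 0 / (g j).coeff 0) * (D * C ((g j).coeff 0)) := by ring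
      _ = _ := by rw [← h2]
  · push Not at hone
    have h1 : u = {i} := Finset.eq_singleton_iff_unique_mem.2 ⟨hi, hone⟩
    rw [h1, Finset.sum_singleton] at hdrel
    rcases mul_eq_zero.1 hdrel with h2 | h2
    · exact hd i hi (C_eq_zero.1 h2)
    · exact h0 i (hut hi) (pow_eq_zero_iff (by omega) |>.1 h2)

end Pool.Agent.TH710.NP
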