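import Mathlib
import Pool.Agent.TH710.NP.NS

/-!
# Linear independence of high powers of pairwise non-proportional polynomials in several variables
-/

set_option autoImplicit false

namespace Pool.Agent.TH710.NP

open Polynomial

section kron

variable {F : Type*} [CommRing F] {n : ℕ}

/-- the Kronecker exponent -/
def wt (N : ℕ) (m : Fin n →₀ ℕ) : ℕ := ∑ x, m x * N ^ (x : ℕ)

theorem wt_inj {N : ℕ} {m m' : Fin n →₀ ℕ} (h : ∀ x, m x < N) (h' : ∀ x, m' x < N)
    (hw : wt N m = wt N m') : m = m' := by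
  have h1 : (finFunctionFinEquiv (fun x => (⟨m x, h x⟩ : Fin N)) : Fin (N ^ n)) =
      finFunctionFinEquiv (fun x => (⟨m' x, h' x⟩ : Fin N)) := by
    apply Fin.ext
    rw [finFunctionFinEquiv_apply, finFunctionFinEquiv_apply]
    exact hw
  have h2 := finFunctionFinEquiv.injective h1
  ext x
  have h3 := congrFun h2 x
  exact congrArg Fin.val h3

/-- the Kronecker substitution -/
noncomputable def kron (F : Type*) [CommRing F] (n N : ℕ) : MvPolynomial (Fin n) F →ₐ[F] F[X] :=
  MvPolynomial.aeval fun x : Fin n => (X : F[X]) ^ (N ^ (x : ℕ))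

theorem kron_monomial (N : ℕ) (m : Fin n →₀ ℕ) (a : F) :
    kron F n N (MvPolynomial.monomial m a) = C a * X ^ wt N m := by
  unfold kron wt
  rw [MvPolynomial.aeval_monomial, Finsupp.prod_fintype _ _ fun i => pow_zero _,
    ← Finset.prod_pow_eq_pow_sum]
  congr 1
  refine Finset.prod_congr rfl fun x _ => ?_
  rw [← pow_mul, mul_comm]

theorem kron_inj {N : ℕ} {f : MvPolynomial (Fin n) F} (hf : f.totalDegree < N)
    (h : kron F n N f = 0) : f = 0 := by
  classical
  by_contra hne
  obtain ⟨m, hm⟩ := Finset.nonempty_iff_ne_empty.2 (fun h => hne (MvPolynomial.support_eq_empty.1 h))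
  have hbox : ∀ m ∈ f.support, ∀ x, m x < N := by
    intro m hm x
    refine lt_of_le_of_lt ?_ hf
    refine le_trans ?_ (MvPolynomial.le_totalDegree hm)
    rw [Finsupp.sum_fintype _ _ fun _ => rfl]
    exact Finset.single_le_sum (f := fun i => m i) (fun _ _ => Nat.zero_le _) (Finset.mem_univ x)
  have h1 : (kron F n N f).coeff (wt N m) = f.coeff m := by
    conv_lhs => rw [f.as_sum, map_sum, finsetSum_coeff]
    rw [Finset.sum_eq_single m]
    · rw [kron_monomial, coeff_C_mul_X_pow, if_pos rfl]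
    · intro m' hm' hne'
      rw [kron_monomial, coeff_C_mul_X_pow, if_neg]
      intro hw
      exact hne' (wt_inj (hbox m hm) (hbox m' hm') hw).symm
    · intro h; exact absurd hm h
  rw [h, coeff_zero] at h1
  exact (MvPolynomial.mem_support_iff.1 hm) h1.symm

end kron

/-- The linear independence statement for the algebra `B`. -/
def PowIndep (K B : Type*) [Field K] [CommRing B] [Algebra K B] : Prop :=
  ∀ (ι : Type) (t : Finset ι) (h : ι → B), (∀ i ∈ t, h i ≠ 0) →
    (∀ i ∈ t, ∀ j ∈ t, i ≠ j → ∀ c : K, h i ≠ c • h j) → ∀ e : ℕ, 1 ≤ e →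
    (t.card - 1) ^ 2 ≤ e → ∀ c : ι → K, ∑ i ∈ t, c i • h i ^ e = 0 → ∀ i ∈ t, c i = 0

theorem powIndep_poly (K : Type*) [Field K] [CharZero K] [IsAlgClosed K] :
    PowIndep K K[X] := by
  intro ι t h h0 hnp e he1 he c hsum
  refine pow_indep t h h0 (fun i hi j hj hij c => ?_) e he1 he c ?_
  · rw [← smul_eq_C_mul]
    exact hnp i hi j hj hij c
  · rw [← hsum]
    exact Finset.sum_congr rfl fun i _ => (smul_eq_C_mul _).symm

theorem powIndep_fin (K : Type*) [Field K] [CharZero K] [IsAlgClosed K] (n : ℕ) :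
    PowIndep K (MvPolynomial (Fin n) K) := by
  classical
  intro ι t h h0 hnp e he1 he c hsum
  set N := (t.sup fun i => (h i).totalDegree) + 1 with hN
  have hdeg : ∀ i ∈ t, (h i).totalDegree < N := fun i hi =>
    Nat.lt_succ_of_le (Finset.le_sup (f := fun i => (h i).totalDegree) hi)
  refine powIndep_poly K ι t (fun i => kron K n N (h i)) (fun i hi hz => ?_)
    (fun i hi j hj hij a hz => ?_) e he1 he c ?_
  · exact h0 i hi (kron_inj (hdeg i hi) hz)
  · apply hnp i hi j hj hij a
    rw [← sub_eq_zero]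
    refine kron_inj (N := N) ?_ ?_
    · refine lt_of_le_of_lt (MvPolynomial.totalDegree_sub _ _) (max_lt (hdeg i hi) ?_)
      exact lt_of_le_of_lt (MvPolynomial.totalDegree_smul_le _ _) (hdeg j hj)
    · rw [map_sub, map_smul, ← hz, sub_self]
  · have h1 := congrArg (kron K n N) hsum
    rw [map_sum, map_zero] at h1
    rw [← h1]
    refine Finset.sum_congr rfl fun i _ => ?_
    rw [map_smul, map_pow]

theorem PowIndep.equiv {K B B' : Type*} [Field K] [CommRing B] [Algebra K B] [CommRing B']
    [Algebra K B'] (φ : B' ≃ₐ[K] B) (hB : PowIndep K B) : PowIndep K B' := by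
  intro ι t h h0 hnp e he1 he c hsum
  refine hB ι t (fun i => φ (h i)) (fun i hi hz => ?_) (fun i hi j hj hij a hz => ?_) e he1 he c ?_
  · exact h0 i hi (φ.injective (by rw [hz, map_zero]))
  · apply hnp i hi j hj hij a
    apply φ.injective
    rw [hz, map_smul]
  · have h1 := congrArg φ hsum
    rw [map_sum, map_zero] at h1
    rw [← h1]
    refine Finset.sum_congr rfl fun i _ => ?_
    rw [map_smul, map_pow]

theorem powIndep_mv (K : Type*) [Field K] [CharZero K] [IsAlgClosed K] (τ : Type*) [Finite τ] :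
    PowIndep K (MvPolynomial τ K) := by
  obtain ⟨n, ⟨ε⟩⟩ := Finite.exists_equiv_fin τ
  exact (powIndep_fin K n).equiv (MvPolynomial.renameEquiv K ε)

theorem powIndep_mvpoly (K : Type*) [Field K] [CharZero K] [IsAlgClosed K] (τ : Type*)
    [Finite τ] : PowIndep K (MvPolynomial τ (Polynomial K)) :=
  (powIndep_mv K (Option τ)).equiv (MvPolynomial.optionEquivRight K τ).symm

end Pool.Agent.TH710.NP
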