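import Mathlib
import Pool.Agent.TH710.NP.Kron

/-!
# Nested sums of high powers: a map that is injective on differences of members of a class does not
kill nested sums of high powers of members of the class
-/

set_option autoImplicit false

namespace Pool.Agent.TH710.NP

variable {K A B : Type} [Field K] [CommRing A] [Algebra K A] [CommRing B]
  [Algebra K B]

/-- `G` does not kill nonzero combinations of two members of `S`. -/
def Inj2 (G : A →ₐ[K] B) (S : Set A) : Prop :=
  ∀ f ∈ S, ∀ g ∈ S, ∀ a b : K, G (a • f + b • g) = 0 → a • f + b • g = 0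

/-- products of `p` members of `S` -/
def Prods (p : ℕ) (S : Set A) : Set A := {f | ∃ s : Fin p → A, (∀ i, s i ∈ S) ∧ f = ∏ i, s i}

/-- the polynomials computed on the last level -/
def Level (K : Type) {A : Type} [Field K] [CommRing A] [Algebra K A] (S : Set A) :
    List (ℕ × ℕ × ℕ) → Set A
  | [] => S
  | (k, q, e) :: l => {f | ∃ (c : Fin k → K) (g : Fin k → Fin q → A),
      (∀ i j, g i j ∈ Level K S l) ∧ f = ∑ i, c i • (∏ j, g i j) ^ e}

/-- the exponents are large -/
def Good : ℕ → List (ℕ × ℕ × ℕ) → Prop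
  | _, [] => True
  | p, (k, q, e) :: l => (2 * k ^ p - 1) ^ 2 ≤ e ∧ Good (p * q) l

/-- the product of the product fan-ins -/
def fan : List (ℕ × ℕ × ℕ) → ℕ
  | [] => 1
  | (_, q, _) :: l => q * fan l

theorem Inj2.ne {G : A →ₐ[K] B} {S : Set A} (h : Inj2 G S) {f : A} (hf : f ∈ S) (h0 : f ≠ 0) :
    G f ≠ 0 := by
  intro hz
  apply h0
  have := h f hf f hf 1 0 (by rw [one_smul, zero_smul, add_zero]; exact hz)
  rwa [one_smul, zero_smul, add_zero] at this

theorem reduce {ι : Type} [DecidableEq ι] (P : ι → A) (b : ι → K) {e : ℕ} (he : 1 ≤ e)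
    (J : Finset ι) : ∃ t ⊆ J, ∃ β : ι → K, (∀ i ∈ t, P i ≠ 0) ∧
      (∀ i ∈ t, ∀ j ∈ t, i ≠ j → ∀ c : K, P i ≠ c • P j) ∧
      ∑ j ∈ J, b j • P j ^ e = ∑ i ∈ t, β i • P i ^ e := by
  classical
  induction J using Finset.induction_on with
  | empty => exact ⟨∅, subset_rfl, b, by simp, by simp, rfl⟩
  | insert j J hj ih =>
    obtain ⟨t, htJ, β, h1, h2, h3⟩ := ih
    rw [Finset.sum_insert hj, h3]
    have htj : j ∉ t := fun h => hj (htJ h)
    by_cases hz : P j = 0
    · refine ⟨t, htJ.trans (Finset.subset_insert _ _), β, h1, h2, ?_⟩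
      rw [hz, zero_pow (by omega), smul_zero, zero_add]
    by_cases hp : ∃ i ∈ t, ∃ c : K, P j = c • P i
    · obtain ⟨i, hi, c, hc⟩ := hp
      refine ⟨t, htJ.trans (Finset.subset_insert _ _),
        Function.update β i (β i + b j * c ^ e), h1, h2, ?_⟩
      rw [← Finset.add_sum_erase t _ hi, ← Finset.add_sum_erase t _ hi, Function.update_self, hc,
        smul_pow, smul_smul, add_smul, ← add_assoc, add_comm (β i • P i ^ e)]
      congr 1
      refine Finset.sum_congr rfl fun i' hi' => ?_
      rw [Function.update_of_ne (Finset.ne_of_mem_erase hi')]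
    · push Not at hp
      refine ⟨insert j t, Finset.insert_subset_insert _ htJ, Function.update β j (b j), ?_, ?_, ?_⟩
      · intro i hi
        rcases Finset.mem_insert.1 hi with rfl | hi
        · exact hz
        · exact h1 i hi
      · intro i hi i' hi' hii c hc
        rcases Finset.mem_insert.1 hi with rfl | hit
        · rcases Finset.mem_insert.1 hi' with h' | hit'
          · exact hii h'.symm
          · exact hp i' hit' c hc
        · rcases Finset.mem_insert.1 hi' with rfl | hit'
          · have hc0 : c ≠ 0 := by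
              rintro rfl
              apply h1 i hit
              rw [hc, zero_smul]
            apply hp i hit c⁻¹
            rw [hc, smul_smul, inv_mul_cancel₀ hc0, one_smul]
          · exact h2 i hit i' hit' hii c hc
      · rw [Finset.sum_insert htj, Function.update_self]
        congr 1
        refine Finset.sum_congr rfl fun i' hi' => ?_
        rw [Function.update_of_ne (fun h : i' = j => htj (by rw [← h]; exact hi'))]

/-- combinations of few high powers of members of `S` are not killed -/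
theorem Inj2.comb {G : A →ₐ[K] B} {S : Set A} (hB : PowIndep K B) (h : Inj2 G S)
    {ι : Type} (J : Finset ι) (P : ι → A) (hP : ∀ j ∈ J, P j ∈ S) (b : ι → K) {e : ℕ}
    (he : 1 ≤ e) (hJ : (J.card - 1) ^ 2 ≤ e) (hz : G (∑ j ∈ J, b j • P j ^ e) = 0) :
    ∑ j ∈ J, b j • P j ^ e = 0 := by
  classical
  obtain ⟨t, htJ, β, h1, h2, h3⟩ := reduce P b he J
  rw [h3] at hz ⊢
  have h4 := hB ι t (fun i => G (P i)) (fun i hi => h.ne (hP i (htJ hi)) (h1 i hi))
    (fun i hi j hj hij c hc => by
      apply h2 i hi j hj hij c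
      have h5 := h _ (hP i (htJ hi)) _ (hP j (htJ hj)) 1 (-c) (by
        rw [map_add, map_smul, map_smul, one_smul, hc, neg_smul, add_neg_cancel])
      rw [one_smul, neg_smul, ← sub_eq_add_neg, sub_eq_zero] at h5
      exact h5) e he
    ((Nat.pow_le_pow_left (Nat.sub_le_sub_right (Finset.card_le_card htJ) 1) 2).trans hJ) β (by
      rw [map_sum] at hz
      rw [← hz]
      refine Finset.sum_congr rfl fun i _ => ?_
      rw [map_smul, map_pow])
  exact Finset.sum_eq_zero fun i hi => by rw [h4 i hi, zero_smul]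

theorem prods_mul {p q : ℕ} {S : Set A} (s : Fin p → Fin q → A) (hs : ∀ i j, s i j ∈ S) :
    ∏ i, ∏ j, s i j ∈ Prods (p * q) S := by
  refine ⟨fun x => s (finProdFinEquiv.symm x).1 (finProdFinEquiv.symm x).2, fun x => hs _ _, ?_⟩
  rw [← Fintype.prod_prod_type' (f := fun i j => s i j)]
  exact (Equiv.prod_comp finProdFinEquiv.symm fun x : Fin p × Fin q => s x.1 x.2).symm

theorem expand {k q e p : ℕ} {S : Set A} {l : List (ℕ × ℕ × ℕ)} {f : A}
    (hf : f ∈ Prods p (Level K S ((k, q, e) :: l))) :
    ∃ (b : (Fin p → Fin k) → K) (P : (Fin p → Fin k) → A),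
      (∀ χ, P χ ∈ Prods (p * q) (Level K S l)) ∧ f = ∑ χ, b χ • P χ ^ e := by
  classical
  obtain ⟨s, hs, rfl⟩ := hf
  choose c g hg hsum using hs
  refine ⟨fun χ => ∏ a, c a (χ a), fun χ => ∏ a, ∏ j, g a (χ a) j, fun χ =>
    prods_mul (fun a j => g a (χ a) j) fun a j => hg a _ j, ?_⟩
  simp only [hsum]
  rw [Finset.prod_univ_sum, Fintype.piFinset_univ]
  refine Finset.sum_congr rfl fun χ _ => ?_
  rw [Finset.prod_smul, Finset.prod_pow]

/-- **Lifting.** -/
theorem lift {G : A →ₐ[K] B} {S : Set A} (hB : PowIndep K B) (l : List (ℕ × ℕ × ℕ)) :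
    ∀ p : ℕ, Good p l → Inj2 G (Prods (p * fan l) S) → Inj2 G (Prods p (Level K S l)) := by
  classical
  induction l with
  | nil =>
    intro p _ h
    simpa [fan, Level] using h
  | cons x l ih =>
    obtain ⟨k, q, e⟩ := x
    intro p hgood h
    obtain ⟨he, hgood⟩ := hgood
    have h1 := ih (p * q) hgood (by rw [mul_assoc]; exact h)
    intro f hf g hg a b hz
    obtain ⟨β, P, hP, hfs⟩ := expand hf
    obtain ⟨β', P', hP', hgs⟩ := expand hg
    have hsum : a • f + b • g = ∑ x : (Fin p → Fin k) ⊕ (Fin p → Fin k),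
        (Sum.elim (fun χ => a * β χ) (fun χ => b * β' χ) x) • (Sum.elim P P' x) ^ e := by
      rw [Fintype.sum_sum_type]
      simp only [Sum.elim_inl, Sum.elim_inr]
      rw [hfs, hgs, Finset.smul_sum, Finset.smul_sum]
      simp only [smul_smul]
    rw [hsum] at hz ⊢
    have hcard : (Finset.univ : Finset ((Fin p → Fin k) ⊕ (Fin p → Fin k))).card = 2 * k ^ p := by
      rw [Finset.card_univ, Fintype.card_sum, Fintype.card_fun, Fintype.card_fin,
        Fintype.card_fin, two_mul]
    rcases Nat.eq_zero_or_pos (k ^ p) with h0 | h0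
    · rw [h0, mul_zero] at hcard
      rw [Finset.card_eq_zero.1 hcard, Finset.sum_empty]
    · refine h1.comb hB Finset.univ _ ?_ _ ?_ ?_ hz
      · rintro (χ | χ) _
        · exact hP χ
        · exact hP' χ
      · refine le_trans ?_ he
        have : 1 ≤ 2 * k ^ p - 1 := by omega
        exact Nat.one_le_pow _ _ this
      · rw [hcard]
        exact he

theorem prods_one {S : Set A} {f : A} (hf : f ∈ S) : f ∈ Prods 1 S :=
  ⟨fun _ => f, fun _ => hf, by simp⟩

theorem lift_ne {G : A →ₐ[K] B} {S : Set A} (hB : PowIndep K B) {l : List (ℕ × ℕ × ℕ)}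
    (hl : Good 1 l) (h : Inj2 G (Prods (fan l) S)) {f : A} (hf : f ∈ Level K S l) (h0 : f ≠ 0) :
    G f ≠ 0 :=
  (lift hB l 1 hl (by rw [one_mul]; exact h)).ne (prods_one hf) h0

end Pool.Agent.TH710.NP
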